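import Mathlib

namespace Pool.Agent.Results.MP_af84f5_co.Supersolvable

open Relation

/-- the reorientation `D^S` of the digraph with arc relation `E` -/
def Rev {V : Type} (E : V → V → Prop) (S : Set (V × V)) (u v : V) : Prop :=
  (E u v ∧ (u, v) ∉ S) ∨ (E v u ∧ (v, u) ∈ S)

/-- no directed cycle -/
def Acyclic {V : Type} (R : V → V → Prop) : Prop := ∀ v, ¬ TransGen R v v

/-- `AR_D`: the sets `S` of arcs such that `D^S` is acyclic -/
def AR {V : Type} (E : V → V → Prop) : Type :=
  {S : Set (V × V) // (∀ p ∈ S, E p.1 p.2) ∧ Acyclic (Rev E S)}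

/-- Stanley's supersolvable lattices: there is a maximal chain `M` such that for every chain `K`
the sublattice generated by `M ∪ K` is distributive. -/
def SupersolvableLattice (α : Type) [Lattice α] : Prop :=
  ∃ M : Set α, IsMaxChain (· ≤ ·) M ∧ ∀ K : Set α, IsChain (· ≤ ·) K →
    ∀ x ∈ latticeClosure (M ∪ K), ∀ y ∈ latticeClosure (M ∪ K), ∀ z ∈ latticeClosure (M ∪ K),
      x ⊓ (y ⊔ z) = (x ⊓ y) ⊔ (x ⊓ z)

/-- the poset `AR_D` (ordered by inclusion) is a supersolvable lattice -/
def ARSupersolvable {V : Type} (E : V → V → Prop) : Prop :=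
  ∃ L : Lattice (AR E), (∀ x y : AR E, L.le x y ↔ x.1 ⊆ y.1) ∧ @SupersolvableLattice (AR E) L

/-- adjacency in the underlying graph -/
def Adj {V : Type} (E : V → V → Prop) (u v : V) : Prop := E u v ∨ E v u

/-- peo-consistency of the subdigraph induced by the vertex set `W` -/
inductive PeoCons {V : Type} [DecidableEq V] (E : V → V → Prop) : Finset V → Prop
  | small (W : Finset V) : W.card ≤ 1 → PeoCons E W
  | step (W : Finset V) (v : V) : v ∈ W →
      ((∀ u ∈ W, ¬ E u v) ∨ (∀ u ∈ W, ¬ E v u)) →
      (∀ u ∈ W, ∀ w ∈ W, u ≠ w → Adj E v u → Adj E v w → Adj E u w) →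
      PeoCons E (W.erase v) → PeoCons E W

/-! ### the flip lemma -/

lemma tg_mono {V : Type} {R R' : V → V → Prop} (h : ∀ a b, R a b → R' a b) {x y : V}
    (hxy : TransGen R x y) : TransGen R' x y := by
  induction hxy with
  | single hb => exact TransGen.single (h _ _ hb)
  | tail _ hb ih => exact ih.tail (h _ _ hb)

lemma path_dichotomy {V : Type} {R' R'' : V → V → Prop} {u v : V}
    (hR : ∀ a b, R'' a b → R' a b ∨ (a = v ∧ b = u)) (hno : ¬ ReflTransGen R' u v) {x y : V}
    (h : TransGen R'' x y) :
    TransGen R' x y ∨ (ReflTransGen R' x v ∧ ReflTransGen R' u y) := by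
  induction h with
  | @single b hb =>
    rcases hR _ _ hb with h | ⟨rfl, rfl⟩
    · exact Or.inl (TransGen.single h)
    · exact Or.inr ⟨ReflTransGen.refl, ReflTransGen.refl⟩
  | @tail b c _ hbc ih =>
    rcases hR _ _ hbc with h | ⟨h1, h2⟩
    · rcases ih with ih | ⟨ih1, ih2⟩
      · exact Or.inl (ih.tail h)
      · exact Or.inr ⟨ih1, ih2.tail h⟩
    · subst h1
      subst h2
      rcases ih with ih | ⟨ih1, ih2⟩
      · exact Or.inr ⟨ih.to_reflTransGen, ReflTransGen.refl⟩
      · exact absurd ih2 hno

section

variable {V : Type} [Fintype V] {E : V → V → Prop}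

lemma exists_rank {R : V → V → Prop} (h : Acyclic R) : ∃ ρ : V → ℕ, ∀ u v, R u v → ρ u < ρ v := by
  classical
  refine ⟨fun v => (Finset.univ.filter fun u => TransGen R u v).card, fun u v huv => ?_⟩
  apply Finset.card_lt_card
  rw [Finset.ssubset_iff_of_subset]
  · refine ⟨u, ?_, ?_⟩
    · simpa using TransGen.single huv
    · simpa using h u
  · intro w hw
    simp only [Finset.mem_filter, Finset.mem_univ, true_and] at hw ⊢
    exact hw.tail huv

lemma rank_mono {R : V → V → Prop} {ρ : V → ℕ} (hρ : ∀ u v, R u v → ρ u < ρ v) {u v : V}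
    (h : ReflTransGen R u v) : ρ u ≤ ρ v := by
  induction h with
  | refl => exact le_rfl
  | tail _ h ih => exact ih.trans (hρ _ _ h).le

lemma flip (hasym : ∀ u v, E u v → ¬ E v u) {S S' : Set (V × V)}
    (hS : Acyclic (Rev E S)) (hS'E : ∀ p ∈ S', E p.1 p.2) (hS' : Acyclic (Rev E S'))
    (hsub : S ⊆ S') (hne : S ≠ S') : ∃ a ∈ S', a ∉ S ∧ Acyclic (Rev E (insert a S)) := by
  classical
  obtain ⟨ρ, hρ⟩ := exists_rank hS
  -- choose an arc of minimal length
  have hex : ∃ n : ℕ, ∃ a ∈ S', a ∉ S ∧ ρ a.2 - ρ a.1 = n := by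
    obtain ⟨a, ha, ha'⟩ := Set.exists_of_ssubset (lt_of_le_of_ne hsub hne)
    exact ⟨_, a, ha, ha', rfl⟩
  obtain ⟨a, ha, haS, hn⟩ := Nat.find_spec hex
  have hmin : ∀ b ∈ S', b ∉ S → ρ a.2 - ρ a.1 ≤ ρ b.2 - ρ b.1 := by
    intro b hb hbS
    rw [hn]
    exact Nat.find_min' hex ⟨b, hb, hbS, rfl⟩
  refine ⟨a, ha, haS, ?_⟩
  obtain ⟨u, v⟩ := a
  have hEuv : E u v := hS'E _ ha
  simp only at hmin
  -- the old relation without the arc
  let R' : V → V → Prop := fun p q => Rev E S p q ∧ ¬ (p = u ∧ q = v)
  by_contra hcyc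
  unfold Acyclic at hcyc
  push Not at hcyc
  obtain ⟨x, hx⟩ := hcyc
  have hR : ∀ p q, Rev E (insert (u, v) S) p q → R' p q ∨ (p = v ∧ q = u) := by
    intro p q hpq
    rcases hpq with ⟨h1, h2⟩ | ⟨h1, h2⟩
    · left
      refine ⟨Or.inl ⟨h1, fun h => h2 (Or.inr h)⟩, ?_⟩
      rintro ⟨rfl, rfl⟩
      exact h2 (Or.inl rfl)
    · rcases h2 with h2 | h2
      · right
        exact ⟨congrArg Prod.snd h2, congrArg Prod.fst h2⟩
      · left
        refine ⟨Or.inr ⟨h1, h2⟩, ?_⟩
        rintro ⟨rfl, rfl⟩
        exact hasym _ _ hEuv h1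
  have hR'S : ∀ p q, R' p q → Rev E S p q := fun p q h => h.1
  have hpath : ReflTransGen R' u v := by
    by_contra hno
    rcases path_dichotomy hR hno hx with h | ⟨h1, h2⟩
    · exact hS x (tg_mono hR'S h)
    · exact hno (h2.trans h1)
  -- all arcs of the path survive in S'
  have hsurv : ∀ p q, ReflTransGen R' u p → R' p q → ReflTransGen R' q v → Rev E S' p q := by
    intro p q hup hpq hqv
    rcases hpq.1 with ⟨h1, h2⟩ | ⟨h1, h2⟩
    · left
      refine ⟨h1, fun h3 => ?_⟩
      have h4 := hmin (p, q) h3 h2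
      simp only at h4
      have e1 : ρ u ≤ ρ p := rank_mono (R := R') (fun a b h => hρ _ _ h.1) hup
      have e2 : ρ q ≤ ρ v := rank_mono (R := R') (fun a b h => hρ _ _ h.1) hqv
      have e3 : ρ p < ρ q := hρ _ _ hpq.1
      have e4 : ρ u < ρ p ∨ ρ q < ρ v := by
        rcases ReflTransGen.cases_tail hup with h5 | ⟨b, hb, hb'⟩
        · rcases ReflTransGen.cases_head hqv with h6 | ⟨b, hb, hb'⟩
          · exact absurd ⟨h5, h6⟩ hpq.2
          · right
            have := hρ _ _ hb.1
            have h7 := rank_mono (R := R') (fun a b h => hρ _ _ h.1) hb'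
            omega
        · left
          have := hρ _ _ hb'.1
          have h7 := rank_mono (R := R') (fun a b h => hρ _ _ h.1) hb
          omega
      omega
    · right
      exact ⟨h1, hsub h2⟩
  have hfin : ∀ p, ReflTransGen R' u p → ReflTransGen R' p v → ReflTransGen (Rev E S') u p := by
    intro p hup
    induction hup with
    | refl => intro _; exact ReflTransGen.refl
    | @tail b c hub hbc ih =>
      intro hcv
      exact (ih (ReflTransGen.head hbc hcv)).tail (hsurv b c hub hbc hcv)
  have h8 := hfin v hpath ReflTransGen.refl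
  have h9 : Rev E S' v u := Or.inr ⟨hEuv, ha⟩
  exact hS' u (TransGen.tail' h8 h9)

end

section Core

set_option linter.unusedSectionVars false
variable {V : Type} [Fintype V] {E : V → V → Prop}

/-- the abstract cycle data: `C` is the arc set of a chordless cycle, `F`, `G` its arcs of the two
directions, `S₀` an ambient set -/
structure CycData (E : V → V → Prop) (C F G S₀ : Set (V × V)) : Prop where
  arcs : ∀ p ∈ C, E p.1 p.2
  union : F ∪ G = C
  disj : ∀ p ∈ F, p ∉ G
  s0 : ∀ p ∈ S₀, p ∉ C
  h1 : ∀ T ⊆ C, T ≠ F → T ≠ G →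
    (∀ p ∈ S₀ ∪ T, E p.1 p.2) ∧ Acyclic (Rev E (S₀ ∪ T))
  h2 : ∀ S : Set (V × V), Acyclic (Rev E S) → S ∩ C ≠ F ∧ S ∩ C ≠ G

lemma CycData.symm {C F G S₀ : Set (V × V)} (h : CycData E C F G S₀) : CycData E C G F S₀ where
  arcs := h.arcs
  union := by rw [Set.union_comm]; exact h.union
  disj := fun p hp hp' => h.disj p hp' hp
  s0 := h.s0
  h1 := fun T hT h1 h2 => h.h1 T hT h2 h1
  h2 := fun S hS => ⟨(h.h2 S hS).2, (h.h2 S hS).1⟩

/-- both directions have at least two arcs: `AR` is not a lattice -/
lemma no_lattice {C F G S₀ : Set (V × V)} (h : CycData E C F G S₀) (L : Lattice (AR E))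
    (hL : ∀ x y : AR E, L.le x y ↔ x.1 ⊆ y.1) {f f' g g' : V × V} (hf : f ∈ F) (hf' : f' ∈ F)
    (hff : f ≠ f') (hg : g ∈ G) (hg' : g' ∈ G) (hgg : g ≠ g') : False := by
  have hFC : F ⊆ C := by rw [← h.union]; exact Set.subset_union_left
  have hGC : G ⊆ C := by rw [← h.union]; exact Set.subset_union_right
  have hx := h.h1 {f} (by simpa using hFC hf)
    (fun h' => hff (by have : f' ∈ ({f} : Set _) := by rw [h']; exact hf'
                       exact (Set.mem_singleton_iff.1 this).symm))
    (fun h' => h.disj f hf (by rw [← h']; rfl))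
  have hy := h.h1 (F \ {f}) (fun p hp => hFC hp.1)
    (fun h' => by
      have : f ∈ F \ {f} := by rw [h']; exact hf
      exact this.2 rfl)
    (fun h' => h.disj f' hf' (by rw [← h']; exact ⟨hf', fun h'' => hff h''.symm⟩))
  have hz : ∀ k ∈ G, (∀ p ∈ S₀ ∪ insert k F, E p.1 p.2) ∧ Acyclic (Rev E (S₀ ∪ insert k F)) := by
    intro k hk
    refine h.h1 _ (fun p hp => ?_) (fun h' => ?_) (fun h' => ?_)
    · rcases hp with rfl | hp
      · exact hGC hk
      · exact hFC hp
    · exact h.disj k (by rw [← h']; exact Or.inl rfl) hk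
    · exact h.disj f hf (by rw [← h']; exact Or.inr hf)
  let x : AR E := ⟨_, hx⟩
  let y : AR E := ⟨_, hy⟩
  have hxJ : x.1 ⊆ (L.sup x y).1 := (hL _ _).1 (L.le_sup_left x y)
  have hyJ : y.1 ⊆ (L.sup x y).1 := (hL _ _).1 (L.le_sup_right x y)
  have hJz : ∀ k (hk : k ∈ G), (L.sup x y).1 ⊆ S₀ ∪ insert k F := by
    intro k hk
    have h3 : L.le (L.sup x y) (⟨_, hz k hk⟩ : AR E) := by
      apply L.sup_le
      · rw [hL]
        rintro p (hp | hp)
        · exact Or.inl hp
        · rw [Set.mem_singleton_iff.1 hp]
          exact Or.inr (Or.inr hf)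
      · rw [hL]
        rintro p (hp | hp)
        · exact Or.inl hp
        · exact Or.inr (Or.inr hp.1)
    exact (hL _ _).1 h3
  have hJF : (L.sup x y).1 ∩ C = F := by
    ext p
    constructor
    · rintro ⟨hp, hpC⟩
      rcases hJz g hg hp with h3 | h3
      · exact absurd hpC (h.s0 p h3)
      · rcases h3 with h3 | h3
        · rcases hJz g' hg' hp with h4 | h4
          · exact absurd hpC (h.s0 p h4)
          · rcases h4 with h4 | h4
            · exact absurd (h3.symm.trans h4) hgg
            · exact h4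
        · exact h3
    · intro hp
      refine ⟨?_, hFC hp⟩
      by_cases hpf : p = f
      · exact hxJ (Or.inr hpf)
      · exact hyJ (Or.inr ⟨hp, hpf⟩)
  exact (h.h2 _ (L.sup x y).2.2).1 hJF

/-- one direction is a single arc `e`: an element meeting `C` properly violates distributivity -/
lemma violation {C F G S₀ : Set (V × V)} (h : CycData E C F G S₀) (L : Lattice (AR E))
    (hL : ∀ x y : AR E, L.le x y ↔ x.1 ⊆ y.1) {e : V × V} (hF : F = {e})
    (m : AR E) (hm0 : m.1 ∩ C ≠ ∅) (hm1 : m.1 ∩ C ≠ C) :
    ∃ y z : AR E, L.le y z ∧ L.inf z (L.sup y m) ≠ L.sup (L.inf z y) (L.inf z m) := by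
  have heF : e ∈ F := by rw [hF]; rfl
  have heG : e ∉ G := h.disj e heF
  have hFC : F ⊆ C := by rw [← h.union]; exact Set.subset_union_left
  have hGC : G ⊆ C := by rw [← h.union]; exact Set.subset_union_right
  have hCe : ∀ p ∈ C, p = e ∨ p ∈ G := by
    intro p hp
    rw [← h.union, hF] at hp
    exact hp
  obtain ⟨hmF, hmG⟩ := h.h2 m.1 m.2.2
  -- T' = m ∩ G is neither empty nor G
  have hT0 : ∃ p ∈ G, p ∈ m.1 := by
    by_contra hcon
    push Not at hcon
    by_cases hem : e ∈ m.1
    · apply hmF
      rw [hF]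
      ext p
      constructor
      · rintro ⟨hp, hpC⟩
        rcases hCe p hpC with h3 | h3
        · exact h3
        · exact absurd hp (hcon p h3)
      · intro hp
        rw [Set.mem_singleton_iff.1 hp]
        exact ⟨hem, hFC heF⟩
    · apply hm0
      ext p
      simp only [Set.mem_inter_iff, Set.mem_empty_iff_false, iff_false, not_and]
      intro hp hpC
      rcases hCe p hpC with h3 | h3
      · rw [h3] at hp
        exact hem hp
      · exact hcon p h3 hp
  have hT1 : ∃ p ∈ G, p ∉ m.1 := by
    by_contra hcon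
    push Not at hcon
    by_cases hem : e ∈ m.1
    · apply hm1
      ext p
      constructor
      · rintro ⟨_, hpC⟩
        exact hpC
      · intro hpC
        rcases hCe p hpC with h3 | h3
        · rw [h3]
          exact ⟨hem, hFC heF⟩
        · exact ⟨hcon p h3, hpC⟩
    · apply hmG
      ext p
      constructor
      · rintro ⟨hp, hpC⟩
        rcases hCe p hpC with h3 | h3
        · rw [h3] at hp
          exact absurd hp hem
        · exact h3
      · intro hp
        exact ⟨hcon p hp, hGC hp⟩
  obtain ⟨p0, hp0G, hp0m⟩ := hT0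
  obtain ⟨p1, hp1G, hp1m⟩ := hT1
  have hy := h.h1 (G \ m.1) (fun p hp => hGC hp.1)
    (fun h' => by
      have : p1 ∈ F := by rw [← h']; exact ⟨hp1G, hp1m⟩
      exact h.disj p1 this hp1G)
    (fun h' => by
      have : p0 ∈ G \ m.1 := by rw [h']; exact hp0G
      exact this.2 hp0m)
  have hz := h.h1 (insert e (G \ m.1))
    (fun p hp => by
      rcases hp with rfl | hp
      · exact hFC heF
      · exact hGC hp.1)
    (fun h' => by
      have : p1 ∈ F := by rw [← h']; exact Or.inr ⟨hp1G, hp1m⟩
      exact h.disj p1 this hp1G)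
    (fun h' => heG (by rw [← h']; exact Or.inl rfl))
  let y : AR E := ⟨_, hy⟩
  let z : AR E := ⟨_, hz⟩
  have hyz : L.le y z := by
    rw [hL]
    rintro p (hp | hp)
    · exact Or.inl hp
    · exact Or.inr (Or.inr hp)
  refine ⟨y, z, hyz, ?_⟩
  -- z ≤ y ⊔ m
  have hyJ : y.1 ⊆ (L.sup y m).1 := (hL _ _).1 (L.le_sup_left y m)
  have hmJ : m.1 ⊆ (L.sup y m).1 := (hL _ _).1 (L.le_sup_right y m)
  have hGJ : G ⊆ (L.sup y m).1 := by
    intro p hp
    by_cases hpm : p ∈ m.1
    · exact hmJ hpm
    · exact hyJ (Or.inr ⟨hp, hpm⟩)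
  have heJ : e ∈ (L.sup y m).1 := by
    by_contra hcon
    apply (h.h2 _ (L.sup y m).2.2).2
    ext p
    constructor
    · rintro ⟨hp, hpC⟩
      rcases hCe p hpC with h3 | h3
      · rw [h3] at hp
        exact absurd hp hcon
      · exact h3
    · intro hp
      exact ⟨hGJ hp, hGC hp⟩
  have hzJ : L.le z (L.sup y m) := by
    rw [hL]
    rintro p (hp | hp)
    · exact hyJ (Or.inl hp)
    · rcases hp with rfl | hp
      · exact heJ
      · exact hGJ hp.1
  -- m ⊓ z ≤ y
  have hIz : (L.inf z m).1 ⊆ z.1 := (hL _ _).1 (L.inf_le_left z m)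
  have hIm : (L.inf z m).1 ⊆ m.1 := (hL _ _).1 (L.inf_le_right z m)
  have hIC : ∀ p ∈ (L.inf z m).1, p ∈ C → p = e := by
    intro p hp hpC
    rcases hCe p hpC with h3 | h3
    · exact h3
    · exfalso
      rcases hIz hp with h4 | h4
      · exact h.s0 p h4 hpC
      · rcases h4 with h4 | h4
        · rw [h4] at h3
          exact heG h3
        · exact h4.2 (hIm hp)
  have heI : e ∉ (L.inf z m).1 := by
    intro he
    apply (h.h2 _ (L.inf z m).2.2).1
    rw [hF]
    ext p
    constructor
    · rintro ⟨hp, hpC⟩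
      exact hIC p hp hpC
    · intro hp
      rw [Set.mem_singleton_iff.1 hp]
      exact ⟨he, hFC heF⟩
  have hIy : L.le (L.inf z m) y := by
    rw [hL]
    intro p hp
    rcases hIz hp with h4 | h4
    · exact Or.inl h4
    · rcases h4 with h4 | h4
      · rw [h4] at hp
        exact absurd hp heI
      · exact Or.inr h4
  intro heq
  have h3 : L.le z (L.inf z (L.sup y m)) := L.le_inf _ _ _ (L.le_refl z) hzJ
  rw [heq] at h3
  have h4 : L.le (L.sup (L.inf z y) (L.inf z m)) y := L.sup_le _ _ _ (L.inf_le_right z y) hIy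
  have h5 : L.le z y := L.le_trans _ _ _ h3 h4
  have h6 := (hL _ _).1 h5
  have h7 : e ∈ y.1 := h6 (Or.inr (Or.inl rfl))
  rcases h7 with h7 | h7
  · exact h.s0 e h7 (hFC heF)
  · exact heG h7.1

end Core

section Chain

set_option linter.unusedSectionVars false
variable {V : Type} [Fintype V] {E : V → V → Prop}

lemma mem_of_comparable {α : Type} {r : α → α → Prop} {M : Set α} (hM : IsMaxChain r M) (x : α)
    (h : ∀ m ∈ M, r m x ∨ r x m) : x ∈ M := by
  have h1 : IsChain r (insert x M) := hM.1.insert fun b hb _ => (h b hb).symm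
  have h2 := hM.2 h1 (Set.subset_insert _ _)
  rw [h2]
  exact Set.mem_insert _ _

lemma chain_hits (hasym : ∀ u v, E u v → ¬ E v u) (hE : Acyclic E) {C F G S₀ : Set (V × V)}
    (h : CycData E C F G S₀) {p q : V × V} (hp : p ∈ C) (hq : q ∈ C) (hpq : p ≠ q)
    (L : Lattice (AR E)) (hL : ∀ x y : AR E, L.le x y ↔ x.1 ⊆ y.1) {M : Set (AR E)}
    (hM : IsMaxChain L.le M) : ∃ m ∈ M, m.1 ∩ C ≠ ∅ ∧ m.1 ∩ C ≠ C := by
  by_contra hcon0
  have hcon : ∀ m ∈ M, m.1 ∩ C ≠ ∅ → m.1 ∩ C = C := by
    intro m hm h1
    by_contra h2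
    exact hcon0 ⟨m, hm, h1, h2⟩
  have hfin : M.Finite := by
    have : Finite (AR E) := Subtype.finite
    exact Set.toFinite M
  -- bottom and top
  have hbot : Acyclic (Rev E ∅) := by
    intro v hv
    refine hE v (tg_mono ?_ hv)
    rintro a b (⟨h1, _⟩ | ⟨_, h2⟩)
    · exact h1
    · exact absurd h2 (Set.notMem_empty _)
  have htop : Acyclic (Rev E {p | E p.1 p.2}) := by
    intro v hv
    have h1 : ∀ a b, TransGen (Rev E {p | E p.1 p.2}) a b → TransGen E b a := by
      intro a b hab
      have h0 : ∀ x y, Rev E {p | E p.1 p.2} x y → E y x := by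
        rintro x y (⟨h1, h2⟩ | ⟨h1, _⟩)
        · exact absurd h1 h2
        · exact h1
      induction hab with
      | single hb => exact TransGen.single (h0 _ _ hb)
      | tail _ hb ih => exact TransGen.head (h0 _ _ hb) ih
    exact hE v (h1 _ _ hv)
  let b0 : AR E := ⟨∅, fun p hp => absurd hp (Set.notMem_empty _), hbot⟩
  let t0 : AR E := ⟨{p | E p.1 p.2}, fun p hp => hp, htop⟩
  have hb0 : b0 ∈ M := mem_of_comparable hM _ fun m _ =>
    Or.inr ((hL _ _).2 (Set.empty_subset _))
  have ht0 : t0 ∈ M := mem_of_comparable hM _ fun m _ =>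
    Or.inl ((hL _ _).2 m.2.1)
  have hCne : C ≠ ∅ := fun h' => by
    rw [h'] at hp
    exact hp
  obtain ⟨m1, ⟨hm1M, hm1C⟩, hm1max⟩ := Set.exists_max_image {m ∈ M | m.1 ∩ C = ∅}
    (fun m => m.1.ncard) (hfin.subset fun _ hx => hx.1) ⟨b0, hb0, Set.empty_inter _⟩
  obtain ⟨m2, ⟨hm2M, hm2C⟩, hm2min⟩ := Set.exists_min_image {m ∈ M | m.1 ∩ C = C}
    (fun m => m.1.ncard) (hfin.subset fun _ hx => hx.1)
    ⟨t0, ht0, Set.inter_eq_right.2 h.arcs⟩
  have hcomp : ∀ x ∈ M, ∀ y ∈ M, x.1 ⊆ y.1 ∨ y.1 ⊆ x.1 := by
    intro x hx y hy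
    by_cases hxy : x = y
    · rw [hxy]
      exact Or.inl subset_rfl
    · rcases hM.1 hx hy hxy with h3 | h3
      · exact Or.inl ((hL _ _).1 h3)
      · exact Or.inr ((hL _ _).1 h3)
  have hm12 : m1.1 ⊆ m2.1 := by
    rcases hcomp m1 hm1M m2 hm2M with h3 | h3
    · exact h3
    · exfalso
      apply hCne
      rw [← hm1C]
      apply Set.Subset.antisymm
      · intro x hx
        have hx2 : x ∈ m2.1 ∩ C := by rw [hm2C]; exact hx
        exact ⟨h3 hx2.1, hx⟩
      · exact Set.inter_subset_right
  have hm12ne : m1.1 ≠ m2.1 := by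
    intro h3
    rw [h3, hm2C] at hm1C
    exact hCne hm1C
  obtain ⟨a, ha2, ha1, hacyc⟩ := flip hasym m1.2.2 m2.2.1 m2.2.2 hm12 hm12ne
  let x : AR E := ⟨insert a m1.1, fun p hp => by
    rcases hp with rfl | hp
    · exact m2.2.1 _ ha2
    · exact m1.2.1 _ hp, hacyc⟩
  have hx : x ∈ M := by
    refine mem_of_comparable hM _ fun m hm => ?_
    by_cases hmC : m.1 ∩ C = ∅
    · left
      rw [hL]
      rcases hcomp m hm m1 hm1M with h3 | h3
      · exact h3.trans (Set.subset_insert _ _)
      · have h4 := hm1max m ⟨hm, hmC⟩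
        have h5 : m1.1 = m.1 := Set.eq_of_subset_of_ncard_le h3 h4 (Set.toFinite _)
        rw [← h5]
        exact Set.subset_insert _ _
    · right
      rw [hL]
      have hmC' := hcon m hm hmC
      have h6 : m2.1 ⊆ m.1 := by
        rcases hcomp m2 hm2M m hm with h3 | h3
        · exact h3
        · have h4 := hm2min m ⟨hm, hmC'⟩
          have h5 : m.1 = m2.1 := Set.eq_of_subset_of_ncard_le h3 h4 (Set.toFinite _)
          rw [h5]
      exact (Set.insert_subset ha2 hm12).trans h6
  by_cases hxC : x.1 ∩ C = ∅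
  · have h4 := hm1max x ⟨hx, hxC⟩
    have h5 : (insert a m1.1).ncard = m1.1.ncard + 1 :=
      Set.ncard_insert_of_notMem ha1 (Set.toFinite _)
    have h6 : x.1.ncard = (insert a m1.1).ncard := rfl
    omega
  · have h4 := hcon x hx hxC
    have h5 : ∀ r ∈ C, r = a := by
      intro r hr
      have h6 : r ∈ x.1 ∩ C := by rw [h4]; exact hr
      rcases h6.1 with h7 | h7
      · exact h7
      · exfalso
        have h8 : r ∈ m1.1 ∩ C := ⟨h7, hr⟩
        rw [hm1C] at h8
        exact h8
    exact hpq ((h5 p hp).trans (h5 q hq).symm)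

end Chain

section Cycles

set_option linter.unusedSectionVars false
variable {V : Type} [Fintype V] {E : V → V → Prop}

/-- a cycle of length `k` of the underlying graph -/
def IsCyc (E : V → V → Prop) (k : ℕ) (c : ℕ → V) : Prop :=
  3 ≤ k ∧ (∀ i < k, ∀ j < k, c i = c j → i = j) ∧ ∀ i < k, Adj E (c i) (c ((i + 1) % k))

/-- the underlying graph has a cycle -/
def HasCyc (E : V → V → Prop) : Prop := ∃ k c, IsCyc E k c

lemma adj_symm {u v : V} (h : Adj E u v) : Adj E v u := h.symm

/-- a chordless cycle -/
lemma exists_chordless (h : HasCyc E) : ∃ k c, IsCyc E k c ∧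
    ∀ i < k, ∀ j < k, Adj E (c i) (c j) → i ≠ j → j = (i + 1) % k ∨ i = (j + 1) % k := by
  classical
  have hex : ∃ k, ∃ c, IsCyc E k c := h
  obtain ⟨c, hc⟩ := Nat.find_spec hex
  have hmin : ∀ k', (∃ c', IsCyc E k' c') → Nat.find hex ≤ k' := fun k' h' => Nat.find_min' hex h'
  generalize Nat.find hex = k at hc hmin
  refine ⟨k, c, hc, ?_⟩
  have key : ∀ i j, i < j → j < k → Adj E (c i) (c j) → j = (i + 1) % k ∨ i = (j + 1) % k := by
    intro i j hij hj hadj
    by_contra hcon
    push Not at hcon
    have h1 : j ≠ i + 1 := by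
      intro h1
      apply hcon.1
      rw [Nat.mod_eq_of_lt (by omega), h1]
    have h2 : ¬ (i = 0 ∧ j = k - 1) := by
      rintro ⟨h2, h3⟩
      apply hcon.2
      have : j + 1 = k := by omega
      rw [this, Nat.mod_self, h2]
    have h3 : j - i + 1 < k := by omega
    have h4 := hmin (j - i + 1) ⟨fun t => c (i + t), by omega, ?_, ?_⟩
    · omega
    · intro a ha b hb hab
      have := hc.2.1 (i + a) (by omega) (i + b) (by omega) hab
      omega
    · intro t ht
      by_cases ht' : t + 1 < j - i + 1
      · rw [Nat.mod_eq_of_lt ht']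
        have h5 := hc.2.2 (i + t) (by omega)
        rw [Nat.mod_eq_of_lt (by omega)] at h5
        exact h5
      · have h6 : t + 1 = j - i + 1 := by omega
        rw [h6, Nat.mod_self]
        have h7 : i + t = j := by omega
        show Adj E (c (i + t)) (c (i + 0))
        rw [h7]
        exact adj_symm hadj
  intro i hi j hj hadj hne
  rcases lt_or_gt_of_ne hne with h1 | h1
  · exact key i j h1 hj hadj
  · exact (key j i h1 hi (adj_symm hadj)).symm

lemma cycle_back {R : V → V → Prop} {k : ℕ} (hk : 0 < k) {c : ℕ → V}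
    (h : ∀ i < k, R (c ((i + 1) % k)) (c i)) : TransGen R (c 0) (c 0) := by
  have h1 : ∀ i < k, ReflTransGen R (c i) (c 0) := by
    intro i
    induction i with
    | zero => intro _; exact ReflTransGen.refl
    | succ i ih =>
      intro hi
      have h2 := h i (by omega)
      rw [Nat.mod_eq_of_lt hi] at h2
      exact ReflTransGen.head h2 (ih (by omega))
  have h3 := h (k - 1) (by omega)
  have h4 : k - 1 + 1 = k := by omega
  rw [h4, Nat.mod_self] at h3
  exact TransGen.head' h3 (h1 (k - 1) (by omega))

lemma cycle_fwd {R : V → V → Prop} {k : ℕ} (hk : 0 < k) {c : ℕ → V}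
    (h : ∀ i < k, R (c i) (c ((i + 1) % k))) : TransGen R (c 0) (c 0) := by
  have h1 : ∀ i < k, ReflTransGen R (c 0) (c i) := by
    intro i
    induction i with
    | zero => intro _; exact ReflTransGen.refl
    | succ i ih =>
      intro hi
      have h2 := h i (by omega)
      rw [Nat.mod_eq_of_lt hi] at h2
      exact (ih (by omega)).tail h2
  have h3 := h (k - 1) (by omega)
  have h4 : k - 1 + 1 = k := by omega
  rw [h4, Nat.mod_self] at h3
  exact TransGen.tail' (h1 (k - 1) (by omega)) h3

lemma cycData (hasym : ∀ u v, E u v → ¬ E v u) (hE : Acyclic E) {k : ℕ} {c : ℕ → V}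
    (hc : IsCyc E k c)
    (hch : ∀ i < k, ∀ j < k, Adj E (c i) (c j) → i ≠ j → j = (i + 1) % k ∨ i = (j + 1) % k) :
    ∃ F G S₀ : Set (V × V),
      CycData E {p | E p.1 p.2 ∧ (∃ i < k, c i = p.1) ∧ ∃ i < k, c i = p.2} F G S₀ := by
  classical
  obtain ⟨hk, hinj, hadj⟩ := hc
  have hmod : ∀ i, (i + 1) % k < k := fun i => Nat.mod_lt _ (by omega)
  set C : Set (V × V) := {p | E p.1 p.2 ∧ (∃ i < k, c i = p.1) ∧ ∃ i < k, c i = p.2} with hC
  set F : Set (V × V) := {p | ∃ i < k, p = (c i, c ((i + 1) % k)) ∧ E p.1 p.2} with hF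
  set G : Set (V × V) := {p | ∃ i < k, p = (c ((i + 1) % k), c i) ∧ E p.1 p.2} with hG
  set S₀ : Set (V × V) := {p | E p.1 p.2 ∧ (¬ ∃ i < k, c i = p.1) ∧ ∃ i < k, c i = p.2} with hS
  have hFC : ∀ p ∈ F, p ∈ C := by
    rintro p ⟨i, hi, rfl, hp⟩
    exact ⟨hp, ⟨i, hi, rfl⟩, ⟨_, hmod i, rfl⟩⟩
  have hGC : ∀ p ∈ G, p ∈ C := by
    rintro p ⟨i, hi, rfl, hp⟩
    exact ⟨hp, ⟨_, hmod i, rfl⟩, ⟨i, hi, rfl⟩⟩
  have hdisj : ∀ p ∈ F, p ∉ G := by
    rintro p ⟨i, hi, rfl, hp⟩ ⟨j, hj, h1, h2⟩
    have e1 : c i = c ((j + 1) % k) := congrArg Prod.fst h1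
    have e2 : c ((i + 1) % k) = c j := congrArg Prod.snd h1
    have e3 := hinj _ hi _ (hmod j) e1
    have e4 := hinj _ (hmod i) _ hj e2
    rcases Nat.lt_or_ge (j + 1) k with h5 | h5
    · rw [Nat.mod_eq_of_lt h5] at e3
      rcases Nat.lt_or_ge (i + 1) k with h6 | h6
      · rw [Nat.mod_eq_of_lt h6] at e4
        omega
      · have : i + 1 = k := by omega
        rw [this, Nat.mod_self] at e4
        omega
    · have : j + 1 = k := by omega
      rw [this, Nat.mod_self] at e3
      rw [e3, Nat.mod_eq_of_lt (by omega)] at e4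
      omega
  have hunion : F ∪ G = C := by
    apply Set.Subset.antisymm
    · rintro p (hp | hp)
      · exact hFC p hp
      · exact hGC p hp
    · rintro ⟨u, v⟩ ⟨hp, ⟨i, hi, h1⟩, ⟨j, hj, h2⟩⟩
      simp only at hp h1 h2
      subst h1
      subst h2
      have hne : i ≠ j := by
        rintro rfl
        exact hasym _ _ hp hp
      rcases hch i hi j hj (Or.inl hp) hne with h3 | h3
      · left
        refine ⟨i, hi, ?_, hp⟩
        rw [← h3]
      · right
        refine ⟨j, hj, ?_, hp⟩
        rw [← h3]
  -- direction of every arc in a reorientation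
  have hdir : ∀ (S : Set (V × V)) (i : ℕ), i < k →
      (Rev E S (c i) (c ((i + 1) % k)) ∧ ¬ Rev E S (c ((i + 1) % k)) (c i) ∧
        (((c i, c ((i + 1) % k)) ∈ F ∧ (c i, c ((i + 1) % k)) ∉ S) ∨
          ((c ((i + 1) % k), c i) ∈ G ∧ (c ((i + 1) % k), c i) ∈ S))) ∨
      (Rev E S (c ((i + 1) % k)) (c i) ∧ ¬ Rev E S (c i) (c ((i + 1) % k)) ∧
        (((c i, c ((i + 1) % k)) ∈ F ∧ (c i, c ((i + 1) % k)) ∈ S) ∨
          ((c ((i + 1) % k), c i) ∈ G ∧ (c ((i + 1) % k), c i) ∉ S))) := by
    intro S i hi
    unfold Rev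
    rcases hadj i hi with h1 | h1
    · have h2 := hasym _ _ h1
      have h3 : (c i, c ((i + 1) % k)) ∈ F := ⟨i, hi, rfl, h1⟩
      by_cases h4 : (c i, c ((i + 1) % k)) ∈ S
      · right
        exact ⟨Or.inr ⟨h1, h4⟩, by rintro (⟨_, h5⟩ | ⟨h5, _⟩); exacts [h5 h4, h2 h5],
          Or.inl ⟨h3, h4⟩⟩
      · left
        exact ⟨Or.inl ⟨h1, h4⟩, by rintro (⟨h5, _⟩ | ⟨_, h5⟩); exacts [h2 h5, h4 h5],
          Or.inl ⟨h3, h4⟩⟩
    · have h2 := hasym _ _ h1
      have h3 : (c ((i + 1) % k), c i) ∈ G := ⟨i, hi, rfl, h1⟩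
      by_cases h4 : (c ((i + 1) % k), c i) ∈ S
      · left
        exact ⟨Or.inr ⟨h1, h4⟩, by rintro (⟨_, h5⟩ | ⟨h5, _⟩); exacts [h5 h4, h2 h5],
          Or.inr ⟨h3, h4⟩⟩
      · right
        exact ⟨Or.inl ⟨h1, h4⟩, by rintro (⟨h5, _⟩ | ⟨_, h5⟩); exacts [h2 h5, h4 h5],
          Or.inr ⟨h3, h4⟩⟩
  refine ⟨F, G, S₀, fun p hp => hp.1, hunion, hdisj, fun p hp hp' => hp.2.1 hp'.2.1, ?_, ?_⟩
  · intro T hTC hTF hTG
    refine ⟨?_, ?_⟩
    · rintro p (hp | hp)
      · exact hp.1
      · exact (hTC hp).1
    · set R := Rev E (S₀ ∪ T) with hR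
      -- there is a forward and a backward arc
      have hST : ∀ p ∈ C, (p ∈ S₀ ∪ T ↔ p ∈ T) := by
        intro p hp
        constructor
        · rintro (h1 | h1)
          · exact absurd hp.2.1 h1.2.1
          · exact h1
        · exact Or.inr
      have hfwd : ∃ i < k, R (c i) (c ((i + 1) % k)) := by
        by_contra hcon
        push Not at hcon
        apply hTF
        ext p
        constructor
        · intro hp
          have hpC := hTC hp
          have hpC' := hpC
          rw [← hunion] at hpC
          rcases hpC with h1 | ⟨i, hi, h1, h2⟩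
          · exact h1
          · exfalso
            rcases hdir (S₀ ∪ T) i hi with h3 | h3
            · exact hcon i hi h3.1
            · rcases h3.2.2 with h4 | h4
              · rw [h1] at h2
                exact hasym _ _ (show E (c i) (c ((i + 1) % k)) from by
                  obtain ⟨j, _, _, h5⟩ := h4.1
                  exact h5) h2
              · apply h4.2
                rw [← h1]
                exact Or.inr hp
        · intro hp
          have hpC' := hFC p hp
          obtain ⟨i, hi, h1, h2⟩ := hp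
          rcases hdir (S₀ ∪ T) i hi with h3 | h3
          · exact absurd h3.1 (hcon i hi)
          · rcases h3.2.2 with h4 | h4
            · rw [← h1] at h4
              exact (hST p hpC').1 h4.2
            · exfalso
              rw [h1] at h2
              obtain ⟨j, _, _, h5⟩ := h4.1
              exact hasym _ _ h2 h5
      have hbwd : ∃ i < k, R (c ((i + 1) % k)) (c i) := by
        by_contra hcon
        push Not at hcon
        apply hTG
        ext p
        constructor
        · intro hp
          have hpC := hTC hp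
          have hpC' := hpC
          rw [← hunion] at hpC
          rcases hpC with ⟨i, hi, h1, h2⟩ | h1
          · exfalso
            rcases hdir (S₀ ∪ T) i hi with h3 | h3
            · rcases h3.2.2 with h4 | h4
              · apply h4.2
                rw [← h1]
                exact Or.inr hp
              · rw [h1] at h2
                obtain ⟨j, _, _, h5⟩ := h4.1
                exact hasym _ _ h2 h5
            · exact hcon i hi h3.1
          · exact h1
        · intro hp
          have hpC' := hGC p hp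
          obtain ⟨i, hi, h1, h2⟩ := hp
          rcases hdir (S₀ ∪ T) i hi with h3 | h3
          · rcases h3.2.2 with h4 | h4
            · exfalso
              rw [h1] at h2
              obtain ⟨j, _, _, h5⟩ := h4.1
              exact hasym _ _ h2 h5
            · rw [← h1] at h4
              exact (hST p hpC').1 h4.2
          · exact absurd h3.1 (hcon i hi)
      -- weights
      let nf : ℤ := ((Finset.range k).filter fun i => R (c i) (c ((i + 1) % k))).card
      let nb : ℤ := ((Finset.range k).filter fun i => ¬ R (c i) (c ((i + 1) % k))).card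
      have hnf : 0 < nf := by
        obtain ⟨i, hi, h1⟩ := hfwd
        have : 0 < ((Finset.range k).filter fun i => R (c i) (c ((i + 1) % k))).card :=
          Finset.card_pos.2 ⟨i, by simp [hi, h1]⟩
        exact Int.natCast_pos.2 this
      have hnb : 0 < nb := by
        obtain ⟨i, hi, h1⟩ := hbwd
        have h2 : ¬ R (c i) (c ((i + 1) % k)) := by
          rcases hdir (S₀ ∪ T) i hi with h3 | h3
          · exact absurd h1 h3.2.1
          · exact h3.2.1
        have : 0 < ((Finset.range k).filter fun i => ¬ R (c i) (c ((i + 1) % k))).card :=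
          Finset.card_pos.2 ⟨i, by simp [hi, h2]⟩
        exact Int.natCast_pos.2 this
      let w : ℕ → ℤ := fun i => if R (c i) (c ((i + 1) % k)) then nb else -nf
      have htot : ∑ i ∈ Finset.range k, w i = 0 := by
        simp only [w, Finset.sum_ite, Finset.sum_const, nsmul_eq_mul]
        show nf * nb + nb * (-nf) = 0
        ring
      let hh : ℕ → ℤ := fun j => ∑ i ∈ Finset.range j, w i
      have hsucc : ∀ j, hh (j + 1) = hh j + w j := fun j => Finset.sum_range_succ _ _
      have hk0 : hh k = 0 := htot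
      have hh0 : hh 0 = 0 := Finset.sum_range_zero _
      have hstep : ∀ i < k, hh ((i + 1) % k) = hh i + w i := by
        intro i hi
        rcases Nat.lt_or_ge (i + 1) k with h1 | h1
        · rw [Nat.mod_eq_of_lt h1, hsucc]
        · have h2 : i + 1 = k := by omega
          rw [h2, Nat.mod_self, hh0, ← hsucc, h2, hk0]
      have hmono : ∀ i < k, ∀ j < k, R (c i) (c j) → hh i < hh j := by
        intro i hi j hj hij
        have hne : i ≠ j := by
          rintro rfl
          rcases hij with ⟨h1, _⟩ | ⟨h1, _⟩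
          · exact hasym _ _ h1 h1
          · exact hasym _ _ h1 h1
        have hadj' : Adj E (c i) (c j) := by
          rcases hij with ⟨h1, _⟩ | ⟨h1, _⟩
          · exact Or.inl h1
          · exact Or.inr h1
        rcases hch i hi j hj hadj' hne with h1 | h1
        · rw [h1] at hij ⊢
          rw [hstep i hi]
          have : w i = nb := if_pos hij
          rw [this]
          linarith
        · rw [h1] at hij ⊢
          rw [hstep j hj]
          have h2 : ¬ R (c j) (c ((j + 1) % k)) := by
            rcases hdir (S₀ ∪ T) j hj with h3 | h3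
            · exact absurd hij h3.2.1
            · exact h3.2.1
          have : w j = -nf := if_neg h2
          rw [this]
          linarith
      -- arcs between W and the outside leave W
      have hout : ∀ u v, R u v → (∃ i < k, c i = v) → ∃ i < k, c i = u := by
        intro u v huv hv
        by_contra hu
        rcases huv with ⟨h1, h2⟩ | ⟨h1, h2⟩
        · exact h2 (Or.inl ⟨h1, hu, hv⟩)
        · rcases h2 with h2 | h2
          · exact h2.2.1 hv
          · exact hu (hTC h2).2.2
      have hin : ∀ u v, TransGen R u v → (∃ i < k, c i = v) →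
          (∃ i < k, c i = u) ∧ ∀ i < k, ∀ j < k, c i = u → c j = v → hh i < hh j := by
        intro u v huv
        induction huv with
        | @single b hb =>
          intro hv
          refine ⟨hout _ _ hb hv, fun i hi j hj h1 h2 => hmono i hi j hj ?_⟩
          rw [h1, h2]
          exact hb
        | @tail b d _ hbd ih =>
          intro hv
          have hb := hout _ _ hbd hv
          obtain ⟨h1, h2⟩ := ih hb
          refine ⟨h1, fun i hi j hj h3 h4 => ?_⟩
          obtain ⟨l, hl, h5⟩ := hb
          have h6 := h2 i hi l hl h3 h5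
          have h7 := hmono l hl j hj (by rw [h5, h4]; exact hbd)
          exact h6.trans h7
      intro x hx
      by_cases hxW : ∃ i < k, c i = x
      · obtain ⟨i, hi, h1⟩ := hxW
        exact lt_irrefl _ ((hin x x hx ⟨i, hi, h1⟩).2 i hi i hi h1 h1)
      · have h3 : ∀ y, TransGen R x y → (¬ ∃ i < k, c i = y) ∧ TransGen E x y := by
          intro y hy
          have hstepE : ∀ u v, R u v → (¬ ∃ i < k, c i = u) → E u v := by
            intro u v huv hu
            rcases huv with ⟨h1, _⟩ | ⟨_, h2⟩
            · exact h1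
            · exfalso
              rcases h2 with h2 | h2
              · exact hu h2.2.2
              · exact hu (hTC h2).2.2
          induction hy with
          | @single b hb =>
            exact ⟨fun h4 => hxW (hout _ _ hb h4), TransGen.single (hstepE _ _ hb hxW)⟩
          | @tail b d _ hbd ih =>
            exact ⟨fun h4 => ih.1 (hout _ _ hbd h4), ih.2.tail (hstepE _ _ hbd ih.1)⟩
        exact hE x (h3 x hx).2
  · intro S hS
    constructor
    · intro heq
      apply hS (c 0)
      apply cycle_back (by omega : 0 < k)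
      intro i hi
      rcases hdir S i hi with h3 | h3
      · exfalso
        rcases h3.2.2 with h4 | h4
        · have h5 : (c i, c ((i + 1) % k)) ∈ S ∩ C := by rw [heq]; exact h4.1
          exact h4.2 h5.1
        · have h5 : (c ((i + 1) % k), c i) ∈ F := by rw [← heq]; exact ⟨h4.2, hGC _ h4.1⟩
          exact hdisj _ h5 h4.1
      · exact h3.1
    · intro heq
      apply hS (c 0)
      apply cycle_fwd (by omega : 0 < k)
      intro i hi
      rcases hdir S i hi with h3 | h3
      · exact h3.1
      · exfalso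
        rcases h3.2.2 with h4 | h4
        · have h5 : (c i, c ((i + 1) % k)) ∈ G := by rw [← heq]; exact ⟨h4.2, hFC _ h4.1⟩
          exact hdisj _ h4.1 h5
        · have h5 : (c ((i + 1) % k), c i) ∈ S ∩ C := by rw [heq]; exact h4.1
          exact h4.2 h5.1

end Cycles

section Final

set_option linter.unusedSectionVars false
variable {V : Type} [Fintype V] [DecidableEq V] {E : V → V → Prop}

lemma no_cyc (hasym : ∀ u v, E u v → ¬ E v u) (hE : Acyclic E) (hss : ARSupersolvable E) :
    ¬ HasCyc E := by
  intro hcyc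
  obtain ⟨L, hL, M, hM, hdist⟩ := hss
  obtain ⟨k, c, hc, hch⟩ := exists_chordless hcyc
  obtain ⟨F, G, S₀, hD⟩ := cycData hasym hE hc hch
  set C : Set (V × V) := {p | E p.1 p.2 ∧ (∃ i < k, c i = p.1) ∧ ∃ i < k, c i = p.2} with hC
  have hbot : Acyclic (Rev E ∅) := by
    intro v hv
    refine hE v (tg_mono ?_ hv)
    rintro a b (⟨h1, _⟩ | ⟨_, h2⟩)
    · exact h1
    · exact absurd h2 (Set.notMem_empty _)
  have hFG := hD.h2 ∅ hbot
  rw [Set.empty_inter] at hFG
  have hF : ∃ f, f ∈ F := by
    by_contra hcon
    push Not at hcon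
    exact hFG.1 (Set.eq_empty_iff_forall_notMem.2 hcon).symm
  have hG : ∃ g, g ∈ G := by
    by_contra hcon
    push Not at hcon
    exact hFG.2 (Set.eq_empty_iff_forall_notMem.2 hcon).symm
  obtain ⟨f, hf⟩ := hF
  obtain ⟨g, hg⟩ := hG
  have hfC : f ∈ C := by rw [← hD.union]; exact Or.inl hf
  have hgC : g ∈ C := by rw [← hD.union]; exact Or.inr hg
  have hfg : f ≠ g := fun h => hD.disj f hf (by rw [h]; exact hg)
  obtain ⟨m, hm, hm0, hm1⟩ := chain_hits hasym hE hD hfC hgC hfg L hL hM
  have hviol : ∀ y z : AR E, L.le y z → L.inf z (L.sup y m) = L.sup (L.inf z y) (L.inf z m) := by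
    intro y z hyz
    have hK : IsChain L.le ({y, z} : Set (AR E)) := by
      intro a ha b hb hab
      rcases ha with rfl | ha
      · rcases hb with rfl | hb
        · exact absurd rfl hab
        · rw [Set.mem_singleton_iff.1 hb]
          exact Or.inl hyz
      · rcases hb with rfl | hb
        · rw [Set.mem_singleton_iff.1 ha]
          exact Or.inr hyz
        · exact absurd ((Set.mem_singleton_iff.1 ha).trans (Set.mem_singleton_iff.1 hb).symm) hab
    have h1 := hdist {y, z} hK
    have hy : y ∈ @latticeClosure (AR E) L (M ∪ {y, z}) :=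
      subset_latticeClosure (Or.inr (Or.inl rfl))
    have hz : z ∈ @latticeClosure (AR E) L (M ∪ {y, z}) :=
      subset_latticeClosure (Or.inr (Or.inr rfl))
    have hm' : m ∈ @latticeClosure (AR E) L (M ∪ {y, z}) :=
      subset_latticeClosure (Or.inl hm)
    exact h1 z hz y hy m hm'
  by_cases hF1 : ∃ f' ∈ F, f ≠ f'
  · obtain ⟨f', hf', hff⟩ := hF1
    by_cases hG1 : ∃ g' ∈ G, g ≠ g'
    · obtain ⟨g', hg', hgg⟩ := hG1
      exact no_lattice hD L hL hf hf' hff hg hg' hgg
    · push Not at hG1
      have hGe : G = {g} := by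
        ext p
        exact ⟨fun hp => (hG1 p hp).symm, fun hp => by rw [Set.mem_singleton_iff.1 hp]; exact hg⟩
      obtain ⟨y, z, hyz, hne⟩ := violation hD.symm L hL hGe m hm0 hm1
      exact hne (hviol y z hyz)
  · push Not at hF1
    have hFe : F = {f} := by
      ext p
      exact ⟨fun hp => (hF1 p hp).symm, fun hp => by rw [Set.mem_singleton_iff.1 hp]; exact hf⟩
    obtain ⟨y, z, hyz, hne⟩ := violation hD L hL hFe m hm0 hm1
    exact hne (hviol y z hyz)

lemma peo_of_no_cyc (hasym : ∀ u v, E u v → ¬ E v u) (hno : ¬ HasCyc E) (W : Finset V) :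
    PeoCons E W := by
  classical
  induction hn : W.card generalizing W with
  | zero => exact PeoCons.small W (by omega)
  | succ n ih =>
    by_cases hW1 : W.card ≤ 1
    · exact PeoCons.small W hW1
    · let P : ℕ → Prop := fun m => ∃ c : ℕ → V, (∀ i ≤ m, c i ∈ W) ∧
        (∀ i ≤ m, ∀ j ≤ m, c i = c j → i = j) ∧ ∀ i < m, Adj E (c i) (c (i + 1))
      have hP0 : P 0 := by
        obtain ⟨v, hv⟩ : W.Nonempty := Finset.card_pos.1 (by omega)
        exact ⟨fun _ => v, fun _ _ => hv, fun i hi j hj _ => by omega, fun i hi => by omega⟩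
      have hPbound : ∀ m, P m → m + 1 ≤ W.card := by
        rintro m ⟨c, h1, h2, _⟩
        have h3 : ((Finset.range (m + 1)).image c).card = m + 1 := by
          rw [Finset.card_image_of_injOn, Finset.card_range]
          intro i hi j hj hij
          simp only [Finset.coe_range, Set.mem_Iio] at hi hj
          exact h2 i (by omega) j (by omega) hij
        rw [← h3]
        apply Finset.card_le_card
        intro x hx
        rw [Finset.mem_image] at hx
        obtain ⟨i, hi, rfl⟩ := hx
        rw [Finset.mem_range] at hi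
        exact h1 i (by omega)
      obtain ⟨m, hm, hmax⟩ : ∃ m, P m ∧ ¬ P (m + 1) := by
        by_contra hcon
        push Not at hcon
        have hall : ∀ m, P m := by
          intro m
          induction m with
          | zero => exact hP0
          | succ m ih => exact hcon m ih
        have := hPbound _ (hall W.card)
        omega
      obtain ⟨c, h1, h2, h3⟩ := hm
      -- neighbours of the end vertex
      have hnb : ∀ x ∈ W, Adj E (c m) x → 1 ≤ m ∧ x = c (m - 1) := by
        intro x hx hadj
        by_cases hxp : ∃ i ≤ m, c i = x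
        · obtain ⟨i, hi, rfl⟩ := hxp
          have hne : i ≠ m := by
            rintro rfl
            rcases hadj with h | h
            · exact hasym _ _ h h
            · exact hasym _ _ h h
          by_cases him : i = m - 1
          · exact ⟨by omega, by rw [him]⟩
          · exfalso
            apply hno
            refine ⟨m - i + 1, fun t => c (i + t), by omega, ?_, ?_⟩
            · intro a ha b hb hab
              have := h2 (i + a) (by omega) (i + b) (by omega) hab
              omega
            · intro t ht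
              by_cases ht' : t + 1 < m - i + 1
              · rw [Nat.mod_eq_of_lt ht']
                exact h3 (i + t) (by omega)
              · have h6 : t + 1 = m - i + 1 := by omega
                rw [h6, Nat.mod_self]
                have h7 : i + t = m := by omega
                show Adj E (c (i + t)) (c (i + 0))
                rw [h7]
                exact hadj
        · exfalso
          apply hmax
          refine ⟨fun i => if i ≤ m then c i else x, ?_, ?_, ?_⟩
          · intro i _
            simp only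
            split_ifs with h
            · exact h1 i h
            · exact hx
          · intro i hi j hj hij
            simp only at hij
            by_cases hi' : i ≤ m
            · by_cases hj' : j ≤ m
              · rw [if_pos hi', if_pos hj'] at hij
                exact h2 i hi' j hj' hij
              · rw [if_pos hi', if_neg hj'] at hij
                exact absurd ⟨i, hi', hij⟩ hxp
            · by_cases hj' : j ≤ m
              · rw [if_neg hi', if_pos hj'] at hij
                exact absurd ⟨j, hj', hij.symm⟩ hxp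
              · omega
          · intro i hi
            simp only
            rw [if_pos (by omega : i ≤ m)]
            by_cases hi' : i + 1 ≤ m
            · rw [if_pos hi']
              exact h3 i (by omega)
            · rw [if_neg hi']
              have : i = m := by omega
              rw [this]
              exact hadj
      refine PeoCons.step W (c m) (h1 m le_rfl) ?_ ?_ ?_
      · by_contra hcon
        push Not at hcon
        obtain ⟨⟨u, hu, hEu⟩, ⟨w, hw, hEw⟩⟩ := hcon
        have e1 := (hnb u hu (Or.inr hEu)).2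
        have e2 := (hnb w hw (Or.inl hEw)).2
        rw [e1] at hEu
        rw [e2] at hEw
        exact hasym _ _ hEu hEw
      · intro u hu w hw huw hau haw
        exfalso
        exact huw ((hnb u hu hau).2.trans (hnb w hw haw).2.symm)
      · apply ih
        rw [Finset.card_erase_of_mem (h1 m le_rfl), hn]
        rfl

/-- if the underlying graph has no cycle then `AR_D` is the Boolean lattice of all arc sets -/
lemma supersolvable_of_no_cyc (hasym : ∀ u v, E u v → ¬ E v u) (hno : ¬ HasCyc E) :
    ARSupersolvable E := by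
  classical
  have hac : ∀ S : Set (V × V), Acyclic (Rev E S) := by
    intro S v hv
    -- a shortest closed walk gives a cycle
    have hadj : ∀ a b, Rev E S a b → Adj E a b := by
      rintro a b (h | h)
      · exact Or.inl h.1
      · exact Or.inr h.1
    have hnot2 : ∀ a b, Rev E S a b → ¬ Rev E S b a := by
      rintro a b (⟨h1, h2⟩ | ⟨h1, h2⟩) (⟨h3, h4⟩ | ⟨h3, h4⟩)
      · exact hasym _ _ h1 h3
      · exact h2 h4
      · exact h4 h2
      · exact hasym _ _ h1 h3
    have hwalk : ∀ a b, TransGen (Rev E S) a b → ∃ n, 1 ≤ n ∧ ∃ c : ℕ → V, c 0 = a ∧ c n = b ∧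
        ∀ i < n, Rev E S (c i) (c (i + 1)) := by
      intro a b hab
      induction hab with
      | @single b hb =>
        exact ⟨1, le_rfl, fun i => if i = 0 then a else b, by simp, by simp, fun i hi => by
          have : i = 0 := by omega
          subst this
          simpa using hb⟩
      | @tail b d _ hbd ih =>
        obtain ⟨n, hn, c, h0, h1, h2⟩ := ih
        refine ⟨n + 1, by omega, fun i => if i ≤ n then c i else d, ?_, ?_, ?_⟩
        · simp [h0]
        · simp
        · intro i hi
          by_cases hi' : i < n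
          · simp only [if_pos hi'.le, if_pos (by omega : i + 1 ≤ n)]
            exact h2 i hi'
          · have : i = n := by omega
            subst this
            simp only [le_refl, if_true, if_neg (by omega : ¬ i + 1 ≤ i)]
            rw [h1]
            exact hbd
    have hex : ∃ n, 1 ≤ n ∧ ∃ c : ℕ → V, c 0 = c n ∧ ∀ i < n, Rev E S (c i) (c (i + 1)) := by
      obtain ⟨n, hn, c, h0, h1, h2⟩ := hwalk v v hv
      exact ⟨n, hn, c, h0.trans h1.symm, h2⟩
    obtain ⟨hn1, c, hc0, hstep⟩ := Nat.find_spec hex
    have hmin : ∀ n', (1 ≤ n' ∧ ∃ c : ℕ → V, c 0 = c n' ∧ ∀ i < n', Rev E S (c i) (c (i + 1))) →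
        Nat.find hex ≤ n' := fun n' h' => Nat.find_min' hex h'
    generalize Nat.find hex = n at hn1 hc0 hstep hmin
    have hinj : ∀ i < n, ∀ j < n, c i = c j → i = j := by
      have key : ∀ i j, i < j → j < n → c i ≠ c j := by
        intro i j hij hj heq
        have := hmin (j - i) ⟨by omega, fun t => c (i + t), by
          show c (i + 0) = c (i + (j - i))
          rw [show i + (j - i) = j by omega]
          exact heq, fun t ht => by
            show Rev E S (c (i + t)) (c (i + (t + 1)))
            rw [← add_assoc]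
            exact hstep (i + t) (by omega)⟩
        omega
      intro i hi j hj hij
      rcases lt_trichotomy i j with h | h | h
      · exact absurd hij (key i j h hj)
      · exact h
      · exact absurd hij.symm (key j i h hi)
    have hn3 : 3 ≤ n := by
      by_contra hlt
      have h12 : n = 1 ∨ n = 2 := by omega
      rcases h12 with h | h
      · subst h
        have := hstep 0 (by omega)
        rw [← hc0] at this
        exact hnot2 _ _ this this
      · subst h
        have e1 := hstep 0 (by omega)
        have e2 := hstep 1 (by omega)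
        rw [← hc0] at e2
        exact hnot2 _ _ e1 e2
    refine hno ⟨n, c, hn3, hinj, fun i hi => ?_⟩
    rcases Nat.lt_or_ge (i + 1) n with h | h
    · rw [Nat.mod_eq_of_lt h]
      exact hadj _ _ (hstep i hi)
    · have h' : i + 1 = n := by omega
      rw [h', Nat.mod_self, hc0, ← h']
      exact hadj _ _ (hstep i hi)
  let L : Lattice (AR E) :=
    { le := fun x y => x.1 ⊆ y.1
      lt := fun x y => x.1 ⊆ y.1 ∧ ¬ y.1 ⊆ x.1
      le_refl := fun x => subset_rfl
      le_trans := fun x y z h h' => h.trans h'
      lt_iff_le_not_ge := fun x y => Iff.rfl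
      le_antisymm := fun x y h h' => Subtype.ext (Set.Subset.antisymm h h')
      sup := fun x y => ⟨x.1 ∪ y.1, fun p hp => hp.elim (x.2.1 p) (y.2.1 p), hac _⟩
      inf := fun x y => ⟨x.1 ∩ y.1, fun p hp => x.2.1 p hp.1, hac _⟩
      le_sup_left := fun x y => Set.subset_union_left
      le_sup_right := fun x y => Set.subset_union_right
      sup_le := fun x y z h h' => Set.union_subset h h'
      inf_le_left := fun x y => Set.inter_subset_left
      inf_le_right := fun x y => Set.inter_subset_right
      le_inf := fun x y z h h' => Set.subset_inter h h' }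
  refine ⟨L, fun x y => Iff.rfl, maxChain L.le, maxChain_spec, ?_⟩
  intro K _ x _ y _ z _
  apply Subtype.ext
  exact Set.inter_union_distrib_left x.1 y.1 z.1

/-- The transitive triangle. -/
def Tri (i j : Fin 3) : Prop := i < j

/-- Main result. (1) If `AR_D` is a supersolvable lattice then `D` is peo-consistent; in fact
(2) `AR_D` is a supersolvable lattice if and only if the underlying graph of `D` has no cycle.
(3) The transitive triangle is acyclic and peo-consistent but its `AR_D` is not a supersolvable
lattice. -/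
theorem result :
    (∀ (V : Type) [Fintype V] [DecidableEq V] (E : V → V → Prop),
      (∀ u v, E u v → ¬ E v u) → Acyclic E →
        (ARSupersolvable E → PeoCons E Finset.univ) ∧ (ARSupersolvable E ↔ ¬ HasCyc E)) ∧
    ((∀ u v, Tri u v → ¬ Tri v u) ∧ Acyclic Tri ∧ PeoCons Tri Finset.univ ∧
      ¬ ARSupersolvable Tri) := by
  refine ⟨fun V _ _ E hasym hE => ⟨fun h => peo_of_no_cyc hasym (no_cyc hasym hE h) _,
    fun h => no_cyc hasym hE h, fun h => supersolvable_of_no_cyc hasym h⟩, ?_⟩
  have hasym : ∀ u v, Tri u v → ¬ Tri v u := fun u v h h' => lt_asymm h h'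
  have hac : Acyclic Tri := by
    intro v hv
    have h1 : ∀ a b, TransGen Tri a b → a < b := by
      intro a b hab
      induction hab with
      | single hb => exact hb
      | tail _ hb ih => exact lt_trans ih hb
    exact lt_irrefl _ (h1 v v hv)
  refine ⟨hasym, hac, ?_, ?_⟩
  · have hadj : ∀ u v : Fin 3, u ≠ v → Adj Tri u v := fun u v h => lt_or_gt_of_ne h
    refine PeoCons.step _ 2 (Finset.mem_univ _) (Or.inr fun u _ h => ?_)
      (fun u _ w _ huw _ _ => hadj u w huw) ?_
    · have h' : (2 : Fin 3) < u := h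
      have := u.2
      rw [Fin.lt_def] at h'
      simp at h'
      omega
    · refine PeoCons.step _ 1 (by decide) (Or.inr fun u hu h => ?_)
        (fun u _ w _ huw _ _ => hadj u w huw) ?_
      · have h' : (1 : Fin 3) < u := h
        have h2 : u ≠ 2 := Finset.ne_of_mem_erase hu
        exact (by decide : ∀ u : Fin 3, 1 < u → u ≠ 2 → False) u h' h2
      · exact PeoCons.small _ (by decide)
  · intro hss
    apply no_cyc hasym hac hss
    refine ⟨3, fun i => ⟨i % 3, Nat.mod_lt _ (by omega)⟩, le_rfl, ?_, ?_⟩
    · intro i hi j hj hij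
      have h1 := congrArg Fin.val hij
      simp only at h1
      rw [Nat.mod_eq_of_lt hi, Nat.mod_eq_of_lt hj] at h1
      exact h1
    · intro i hi
      apply lt_or_gt_of_ne
      intro h
      have h1 := congrArg Fin.val h
      simp only at h1
      have h2 : i = 0 ∨ i = 1 ∨ i = 2 := by omega
      rcases h2 with rfl | rfl | rfl <;> simp at h1

end Final

end Pool.Agent.Results.MP_af84f5_co.Supersolvable
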